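import Pool.Agent.N206.CG.Stm2

/-!
Automorphisms of the restricted wreath product permute the factors.
-/

set_option autoImplicit false

namespace Pool.Agent.N494.CG

open Classical SemidirectProduct Pool.Agent.N206.CG

section gen

variable {Z A : Type} [Group A]

theorem sgl_self (z : Z) (a : A) : (sgl z a).1 z = a := by simp [sgl]

theorem sgl_ne {z y : Z} (h : y ≠ z) (a : A) : (sgl z a).1 y = 1 := by simp [sgl, h]

theorem sgl_mul (z : Z) (a b : A) : sgl z (a * b) = sgl z a * sgl z b := by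
  apply Subtype.ext
  funext y
  show (sgl z (a * b)).1 y = (sgl z a).1 y * (sgl z b).1 y
  by_cases h : y = z
  · subst h; simp only [sgl_self]
  · simp only [sgl_ne h, mul_one]

theorem sgl_conj (k : FS Z A) (z : Z) (a : A) :
    k * sgl z a * k⁻¹ = sgl z (k.1 z * a * (k.1 z)⁻¹) := by
  apply Subtype.ext
  funext y
  show k.1 y * (sgl z a).1 y * (k.1 y)⁻¹ = (sgl z (k.1 z * a * (k.1 z)⁻¹)).1 y
  by_cases h : y = z
  · subst h; simp only [sgl_self]
  · simp only [sgl_ne h, mul_one, mul_inv_cancel]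

theorem sgl_eq {y y' : Z} {b b' : A} (h : sgl y b = sgl y' b') (hb : b ≠ 1) :
    y = y' ∧ b = b' := by
  have hy : y = y' := by
    by_contra hne
    apply hb
    have := congrArg (fun k : FS Z A => k.1 y) h
    simp only [sgl_self, sgl_ne hne] at this
    exact this
  subst hy
  refine ⟨rfl, ?_⟩
  have := congrArg (fun k : FS Z A => k.1 y) h
  simpa only [sgl_self] using this

theorem sgl_one (z : Z) : (sgl z 1 : FS Z A) = 1 := by
  have h := sgl_mul z (1 : A) 1
  rw [one_mul] at h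
  exact (mul_eq_left.1 h.symm)

theorem wact_sgl {G : Type} [Group G] [MulAction G Z] (g : G) (z : Z) (a : A) :
    wact G Z A g (sgl z a) = sgl (g • z) a := by
  apply Subtype.ext
  funext y
  show (sgl z a).1 (g⁻¹ • y) = (sgl (g • z) a).1 y
  by_cases h : y = g • z
  · subst h
    rw [inv_smul_smul, sgl_self, sgl_self]
  · rw [sgl_ne h, sgl_ne]
    intro h'
    exact h (by rw [← h', smul_inv_smul])

/-- the embedding of a factor -/
noncomputable def sglH (z : Z) : A →* FS Z A where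
  toFun := sgl z
  map_one' := sgl_one z
  map_mul' := sgl_mul z

end gen

theorem a5_comm (c : A5) (hc : c ≠ 1) : ∃ a : A5, c * a ≠ a * c := by
  by_contra hcon
  push Not at hcon
  apply hc
  have h1 : c ∈ Subgroup.center A5 := by
    rw [Subgroup.mem_center_iff]
    intro g
    exact (hcon g).symm
  rw [alternatingGroup.center_eq_bot (by simp)] at h1
  exact (Subgroup.mem_bot).1 h1

theorem a5_ne : ∃ a : A5, a ≠ 1 := exists_ne 1

variable {G : Type} [Group G] {U : Subgroup G}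

theorem conj_inl (k k' : FS (G ⧸ U) A5) :
    (inl k * inl k' * (inl k)⁻¹ : Wr G U) = inl (k * k' * k⁻¹) := by
  rw [map_mul, map_mul, map_inv]

theorem eq_inl {w : Wr G U} (h : w.right = 1) : w = inl w.left := by
  conv_lhs => rw [← inl_left_mul_inr_right w, h, map_one, mul_one]

/-- the kernel is characteristic -/
theorem right_one (h : S_W1 G U) (hU : U.normalCore = ⊥) (θ : MulAut (Wr G U))
    (k : FS (G ⧸ U) A5) : (θ (inl k)).right = 1 := by
  obtain ⟨a, ha⟩ := a5_ne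
  let N : Subgroup (Wr G U) := Subgroup.comap θ.toMonoidHom (rightHom : Wr G U →* G).ker
  have hN : N.Normal := Subgroup.Normal.comap (MonoidHom.normal_ker _) _
  have hbot : N ≠ ⊥ := by
    intro hb
    have h1 : θ⁻¹ (inl (sgl ((1 : G) : G ⧸ U) a)) ∈ N := by
      show rightHom (θ (θ⁻¹ (inl (sgl ((1 : G) : G ⧸ U) a)))) = 1
      rw [MulAut.apply_inv_self, rightHom_inl]
    rw [hb, Subgroup.mem_bot] at h1
    have h2 := congrArg θ h1
    rw [MulAut.apply_inv_self, map_one, ← map_one inl, inl_inj] at h2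
    have h3 := congrArg (fun k : FS (G ⧸ U) A5 => k.1 ((1 : G) : G ⧸ U)) h2
    simp only [sgl_self] at h3
    exact ha h3
  exact h hU N hN hbot k

theorem right_eq (h : S_W1 G U) (hU : U.normalCore = ⊥) (θ : MulAut (Wr G U)) (w : Wr G U) :
    (θ w).right = (θ (inr w.right)).right := by
  conv_lhs => rw [← inl_left_mul_inr_right w, map_mul, mul_right, right_one h hU, one_mul]

/-- the induced endomorphism of the quotient -/
def ph (θ : MulAut (Wr G U)) : G →* G :=
  (rightHom : Wr G U →* G).comp (θ.toMonoidHom.comp inr)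

theorem ph_apply (θ : MulAut (Wr G U)) (g : G) : ph θ g = (θ (inr g)).right := rfl

theorem ph_inv (h : S_W1 G U) (hU : U.normalCore = ⊥) (θ : MulAut (Wr G U)) (g : G) :
    ph θ⁻¹ (ph θ g) = g := by
  rw [ph_apply, ph_apply, ← right_eq h hU θ⁻¹, MulAut.inv_apply_self, right_inr]

/-- a subgroup of the kernel normalised by the kernel contains factors -/
theorem factor (M : Subgroup (Wr G U))
    (hM : ∀ w ∈ M, ∀ k : FS (G ⧸ U) A5, inl k * w * (inl k)⁻¹ ∈ M) (k : FS (G ⧸ U) A5)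
    (hk : (inl k : Wr G U) ∈ M) (z : G ⧸ U) (hz : k.1 z ≠ 1) (a : A5) :
    (inl (sgl z a) : Wr G U) ∈ M := by
  let B : Subgroup A5 := M.comap ((inl : FS (G ⧸ U) A5 →* Wr G U).comp (sglH z))
  have hB : B.Normal := by
    constructor
    intro b hb c
    show (inl (sgl z (c * b * c⁻¹)) : Wr G U) ∈ M
    have h1 := hM _ hb (sgl z c)
    have h2 : (inl (sgl z c) * inl (sgl z b) * (inl (sgl z c))⁻¹ : Wr G U) =
        inl (sgl z (c * b * c⁻¹)) := by
      rw [conj_inl, sgl_conj, sgl_self]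
    rw [← h2]
    exact h1
  have hne : B ≠ ⊥ := by
    intro hb
    obtain ⟨c, hc⟩ := a5_comm _ hz
    have h1 : k.1 z * c * (k.1 z)⁻¹ * c⁻¹ ∈ B := by
      show (inl (sgl z (k.1 z * c * (k.1 z)⁻¹ * c⁻¹)) : Wr G U) ∈ M
      have h2 : (inl (sgl z (k.1 z * c * (k.1 z)⁻¹ * c⁻¹)) : Wr G U) =
          inl k * (inl (sgl z c) * (inl k)⁻¹ * (inl (sgl z c))⁻¹) := by
        rw [sgl_mul, ← sgl_conj, map_mul, map_mul, map_mul, map_inv]
        have h3 : (sgl z c⁻¹ : FS (G ⧸ U) A5) = (sgl z c)⁻¹ := map_inv (sglH z) c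
        rw [h3, map_inv]
        group
      rw [h2]
      exact M.mul_mem hk (hM _ (M.inv_mem hk) (sgl z c))
    rw [hb, Subgroup.mem_bot] at h1
    apply hc
    have h4 := mul_inv_eq_one.1 h1
    exact mul_inv_eq_iff_eq_mul.1 h4
  have htop := (hB.eq_bot_or_eq_top).resolve_left hne
  have : a ∈ B := by
    rw [htop]
    exact Subgroup.mem_top a
  exact this

theorem image_factor (h : S_W1 G U) (hU : U.normalCore = ⊥) (θ : MulAut (Wr G U)) (z : G ⧸ U) :
    ∃ y : G ⧸ U, ∀ b : A5, ∃ a : A5, θ (inl (sgl z a)) = inl (sgl y b) := by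
  obtain ⟨a, ha⟩ := a5_ne
  let M : Subgroup (Wr G U) := Subgroup.map θ.toMonoidHom
    ((inl : FS (G ⧸ U) A5 →* Wr G U).comp (sglH z)).range
  have hMmem : ∀ w, w ∈ M ↔ ∃ a : A5, θ (inl (sgl z a)) = w := by
    intro w
    constructor
    · rintro ⟨_, ⟨a, rfl⟩, rfl⟩
      exact ⟨a, rfl⟩
    · rintro ⟨a, rfl⟩
      exact ⟨_, ⟨a, rfl⟩, rfl⟩
  have hM : ∀ w ∈ M, ∀ k : FS (G ⧸ U) A5, inl k * w * (inl k)⁻¹ ∈ M := by
    intro w hw k
    obtain ⟨a, rfl⟩ := (hMmem w).1 hw
    rw [hMmem]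
    have h1 := eq_inl (right_one h hU θ⁻¹ k)
    refine ⟨(θ⁻¹ (inl k)).left.1 z * a * ((θ⁻¹ (inl k)).left.1 z)⁻¹, ?_⟩
    have h2 : (inl k : Wr G U) = θ (inl (θ⁻¹ (inl k)).left) := by
      rw [← h1, MulAut.apply_inv_self]
    conv_rhs => rw [h2, ← map_mul, ← map_inv, ← map_mul, conj_inl, sgl_conj]
  have h1 := eq_inl (right_one h hU θ (sgl z a))
  have h2 : (θ (inl (sgl z a))).left ≠ 1 := by
    intro h3
    rw [h3, map_one] at h1
    have h4 := (map_eq_one_iff θ (MulEquiv.injective θ)).1 h1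
    rw [← map_one inl, inl_inj] at h4
    have h5 := congrArg (fun k : FS (G ⧸ U) A5 => k.1 z) h4
    simp only [sgl_self] at h5
    exact ha h5
  have h3 : ∃ y, (θ (inl (sgl z a))).left.1 y ≠ 1 := by
    by_contra hcon
    push Not at hcon
    exact h2 (Subtype.ext (funext hcon))
  obtain ⟨y, hy⟩ := h3
  refine ⟨y, fun b => ?_⟩
  rw [← hMmem]
  refine factor M hM _ ?_ y hy b
  rw [hMmem]
  exact ⟨a, h1⟩

theorem factors (h : S_W1 G U) (hU : U.normalCore = ⊥) (θ : MulAut (Wr G U)) (z : G ⧸ U) :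
    ∃ y : G ⧸ U, (∀ b : A5, ∃ a : A5, θ (inl (sgl z a)) = inl (sgl y b)) ∧
      ∀ a : A5, ∃ b : A5, θ (inl (sgl z a)) = inl (sgl y b) := by
  obtain ⟨a, ha⟩ := a5_ne
  obtain ⟨y, hy⟩ := image_factor h hU θ z
  refine ⟨y, hy, ?_⟩
  obtain ⟨z', hz'⟩ := image_factor h hU θ⁻¹ y
  have hzz : z' = z := by
    obtain ⟨b, hb⟩ := hz' a
    obtain ⟨a', ha'⟩ := hy b
    rw [← ha', MulAut.inv_apply_self, inl_inj] at hb
    exact (sgl_eq hb.symm ha).1
  subst hzz
  intro a
  obtain ⟨b, hb⟩ := hz' a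
  refine ⟨b, ?_⟩
  rw [← hb, MulAut.apply_inv_self]

theorem t_W3 (G : Type) [Group G] (U : Subgroup G) (h : S_W1 G U) : S_W3 G U := by
  intro hU θ
  obtain ⟨a₀, ha₀⟩ := a5_ne
  choose π hπ1 hπ2 using factors h hU θ
  choose f hf using hπ2
  have hf1 : ∀ z a b, θ (inl (sgl z a)) = inl (sgl (π z) b) → f z a = b := by
    intro z a b hab
    rw [hf, inl_inj] at hab
    have := congrArg (fun k : FS (G ⧸ U) A5 => k.1 (π z)) hab
    simpa only [sgl_self] using this
  have hfne : ∀ z a, a ≠ 1 → f z a ≠ 1 := by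
    intro z a ha h1
    have h2 := hf z a
    rw [h1, sgl_one, map_one] at h2
    have h4 := (map_eq_one_iff θ (MulEquiv.injective θ)).1 h2
    rw [← map_one inl, inl_inj] at h4
    have h5 := congrArg (fun k : FS (G ⧸ U) A5 => k.1 z) h4
    simp only [sgl_self] at h5
    exact ha h5
  have hfmul : ∀ z a b, f z (a * b) = f z a * f z b := by
    intro z a b
    apply hf1
    rw [sgl_mul, map_mul, map_mul, hf, hf, sgl_mul, map_mul]
  have hfinj : ∀ z, Function.Injective (f z) := by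
    intro z a b hab
    by_contra hne
    have h1 : f z (a * b⁻¹) = 1 := by
      have h2 := hfmul z (a * b⁻¹) b
      rw [inv_mul_cancel_right, hab] at h2
      exact (mul_eq_right.1 h2.symm)
    exact hfne z _ (fun h3 => hne (mul_inv_eq_one.1 h3)) h1
  have hfsurj : ∀ z, Function.Surjective (f z) := by
    intro z b
    obtain ⟨a, ha⟩ := hπ1 z b
    exact ⟨a, hf1 z a b ha⟩
  have hπinj : Function.Injective π := by
    intro z z' hzz
    have h1 := hf z a₀
    obtain ⟨a', ha'⟩ := hπ1 z' (f z a₀)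
    rw [hzz, ← ha'] at h1
    have h2 := MulEquiv.injective θ h1
    rw [inl_inj] at h2
    exact (sgl_eq h2 ha₀).1
  have hπsurj : Function.Surjective π := by
    intro y
    obtain ⟨z, -, hz⟩ := factors h hU θ⁻¹ y
    obtain ⟨a, ha⟩ := hz a₀
    refine ⟨z, ?_⟩
    have h1 : θ (inl (sgl z a)) = inl (sgl y a₀) := by
      rw [← ha, MulAut.apply_inv_self]
    rw [hf, inl_inj] at h1
    exact (sgl_eq h1.symm ha₀).1.symm
  refine ⟨Equiv.ofBijective π ⟨hπinj, hπsurj⟩,
    fun z => MulEquiv.ofBijective (MonoidHom.mk' (f z) (hfmul z)) ⟨hfinj z, hfsurj z⟩,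
    MulEquiv.mk' ⟨ph θ, ph θ⁻¹, ph_inv h hU θ, fun g => ?_⟩ (map_mul (ph θ)), ?_, ?_, ?_⟩
  · have h1 := ph_inv h hU θ⁻¹ g
    rw [inv_inv] at h1
    exact h1
  · intro z a
    exact hf z a
  · intro w
    exact right_eq h hU θ w
  · intro g z
    show π (g • z) = ph θ g • π z
    have h1 : (inl (sgl (g • z) a₀) : Wr G U) = inr g * inl (sgl z a₀) * (inr g)⁻¹ := by
      rw [← wact_sgl, inl_aut, map_inv]
    have h2 := congrArg θ h1
    rw [hf, map_mul, map_mul, map_inv, hf] at h2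
    have h3 : (θ (inr g) : Wr G U) = inl (θ (inr g)).left * inr (ph θ g) :=
      (inl_left_mul_inr_right _).symm
    have h4 : (θ (inr g) * inl (sgl (π z) (f z a₀)) * (θ (inr g))⁻¹ : Wr G U) =
        inl (sgl (ph θ g • π z) ((θ (inr g)).left.1 (ph θ g • π z) * f z a₀ *
          ((θ (inr g)).left.1 (ph θ g • π z))⁻¹)) := by
      rw [← sgl_conj, ← wact_sgl, map_mul, map_mul, map_inv, inl_aut, map_inv]
      conv_lhs => rw [h3]
      group
    rw [h4, inl_inj] at h2
    exact (sgl_eq h2 (hfne _ _ ha₀)).1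

end Pool.Agent.N494.CG
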